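import Pool.Agent.U951.TR.Idx
import Pool.Agent.U951.TR.Odd

/-!
# At least two primes between the consecutive odd squares: all integers near `s(n)`, `n - φ(n)` and `α n + β f(n)`

Let `s(n)` be the sum of the proper divisors of `n`, let `G` have steps bounded below by a positive constant and order
of growth at most `d ≥ 1`, and `κ ≥ 0`, `0.612 d + κ ≤ e ≤ 1`. We show that for a set of `n` of lower density at least
`1 - e` ALL the integers `k ≥ 1` with `|k - G (s(n))| ≤ s(n) ^ κ` have the following property, and the same holds for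
`n - φ(n)` in place of `s(n)`: there are at least two primes strictly between `(2 k - 1) ^ 2` and `(2 k + 1) ^ 2`, and
every interval of length `H ≥ k ^ (1 - δ)` between these squares contains at least `c H / log k` primes. For `G g = g`
and `κ = 0` this is a statement on `k = s(n)` and `k = n - φ(n)`, for a set of `n` of lower density at least `0.388`.
More precisely the property holds for almost all `n` with a divisor `≥ n ^ e` which is a prime or the product of two
different primes, and for the values `g = α n + β f(n)` of multiplicative functions with `f p = p + c` at the primes,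
uniformly in `|α|, |β| ≤ N ^ δ'` and with a power saving in the number of the exceptional `n`.

The values `s(n)`, `n - φ(n)` are not multiplicative, and some of them are taken very often, so that bounds for the
number of the exceptional `k ≤ X` do not say anything about them.

Proof. The starting library (`Pool/Agent/Q278/KT`, in the form `Pool/Agent/S821/PowIdx` of helper821) bounds the
number of the exceptional `k ≤ X` by `X ^ (0.612 - δ)`. Let `n = k v p` with large primes `p ≠ v`. Then `g = A v p + B
(v + p) + B c`, `A = α k + β f(k)`, `B = β c f(k)`, and so `(A v + B) (A p + B) = A g + B² - A B c`: for given `g`,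
`k`, `α`, `β` there are only `N^o(1)` possibilities for `p` and `v` (tool `Pool.Agent.U365.POW` of helper365).
-/

set_option autoImplicit false

open Finset Filter

namespace Pool.Agent.Results.MP_5f6ee5_nt.AliquotValues

open Pool.Agent.S821.PowIdx (RichPow)
open Pool.Agent.U951.TR.Idx (Near)
open Pool.Agent.U365.POW (Values Dens)
open Pool.Agent.N733.TG (Expanding)

/-- There are at least two primes strictly between the odd squares `(2 k - 1) ^ 2` and `(2 k + 1) ^ 2`, and every interval
`(a, a + H]` between them of length `H ≥ k ^ (1 - δ)` contains at least `c H / log k` primes. -/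
def TwoPrimes (c δ : ℝ) (k : ℕ) : Prop :=
  2 ≤ ((Finset.Ioo ((2 * k - 1) ^ 2) ((2 * k + 1) ^ 2)).filter Nat.Prime).card ∧
  ∀ a H : ℕ, (2 * k - 1) ^ 2 ≤ a → a + H ≤ (2 * k + 1) ^ 2 → (k : ℝ) ^ (1 - δ) ≤ H →
    c * H / Real.log k ≤ (((Finset.Ioc a (a + H)).filter Nat.Prime).card : ℝ)

/-- the constants -/
lemma start (c δ : ℝ) (hc : 0 < c) (hδ : 0 < δ) (hδ1 : δ ≤ 0.0025) : ∃ c' δ' : ℝ, 0 < c' ∧ 0 < δ' ∧
    ∃ k1 : ℕ, ∀ k : ℕ, k1 ≤ k → RichPow c (1 - δ) 2 3 (2 * k) → TwoPrimes c' δ' k := by
  obtain ⟨k1, hk1⟩ := Pool.Agent.U951.TR.Odd.odd_of_rich hc hδ (by linarith)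
  exact ⟨c / 2, δ / 2, by positivity, by positivity, k1, fun k hk h => hk1 k hk h⟩

/-- **Theorem.** There are `c > 0` and `δ > 0` such that for all `G` with steps bounded below and order at most `d ≥ 1`,
and all `κ ≥ 0` and `e ≤ 1` with `0.612 d + κ ≤ e`, the property `TwoPrimes c δ` of ALL the integers `k ≥ 1` with `|k
- G g| ≤ g ^ κ` holds for the values `g` of functions similar to the aliquot sum (`Values e`: for `s(n)`, for `n -
φ(n)` and for all `α n + β f(n)`, for almost all the `n` with a divisor `≥ n ^ e` which is a prime or the product of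
two different primes), and for both `g = s(n)` and `g = n - φ(n)` for a set of `n` of lower density at least `1 - e`. -/
theorem result :
    ∃ c δ : ℝ, 0 < c ∧ 0 < δ ∧ ∀ (G : ℕ → ℝ) (d : ℝ), Expanding G d → ∀ κ e : ℝ, 0 ≤ κ → 0.612 * d + κ ≤ e → e ≤ 1 →
      Values e (Near (TwoPrimes c δ) G κ) ∧ Dens (1 - e) (Near (TwoPrimes c δ) G κ) := by
  obtain ⟨c, δ, hc, hδ, hδ1, H⟩ := Pool.Agent.U951.TR.Idx.tools
  obtain ⟨c', δ', hc', hδ', hk⟩ := start c δ hc hδ hδ1
  refine ⟨c', δ', hc', hδ', fun G d hG κ e hκ he he1 => ?_⟩
  exact (H 2 (TwoPrimes c' δ') (by norm_num) hk G d hG κ e hκ he).1 he1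

end Pool.Agent.Results.MP_5f6ee5_nt.AliquotValues
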