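import Pool.Agent.U513.AP.Primes

/-!
# Many primes between the consecutive odd squares at the numerators and denominators of Diophantine approximations

Let `α ∈ ℝ ^ d` and consider all its approximations `(k, p_1, …, p_d)` with `|k α_i - γ_i - p_i| ≤ k ^ (-τ)`; for `d = 1`, `γ = 0`,
`τ = 1` these contain the denominators and numerators of all the convergents of the continued fraction of `α`, for `τ = 1 / d` all
the best simultaneous approximations. We show that for all `α` outside of a set of Hausdorff dimension at most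
`(d + 0.612 + w - δ) / (1 + τ)` there are at least two primes between `(2 n - 1) ^ 2` and `(2 n + 1) ^ 2` for ALL the integers `n ≥ 1` at a distance of at most `k ^ w` from
`a k + b_1 p_1 + ⋯ + b_d p_d`, for every integral linear form `(a, b) ≠ 0` and all these approximations with large `k`; moreover there are at least `c n / log n` such
primes, and all the intervals of length `H ≥ n ^ (1 - δ)` between these squares contain at least `c H / log n` primes. For
`d = 1`, `τ = 1` the dimension is at most `(1.612 + w - δ) / 2 < 1` for `w ≤ 0.388`. The theorem is more general: linear forms are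
replaced by all the integral polynomials `P(k, p)` of degree at most `D` with small level sets, with the dimension
`(d + 1 - l + 0.612 D + w - δ) / (1 + τ)`, for example `k ^ 2 + p_1 ^ 2 + Q(p_2, …)` with `l = D = 2`, so that for `d = 1`, `τ = 1` all the
integers `n` within `k ^ w` of `k ^ 2 + p ^ 2` are covered, with dimension `(1.224 + w - δ) / 2`. All the `α` with approximations of
exponent `τ > 1 / d` form a set of dimension `(d + 1) / (1 + τ)`, so that the theorem is new information also for large `τ`.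

Proof. `Pool/Agent/Q278/KT` of the starting library (prepared for another question) bounds the number of the exceptional `n ≤ X` by
`X ^ (0.612 - δ)` (`S821/PowIdx` of helper821, form of helper766 in `U766/OP/Core`). The integral vectors `(k, p)` with `k ≈ N` and
`P(k, p)` near the exceptional set are counted with the level sets of `P` (`U513/AP/Core`), and the sets of the `α` approximated
by them, cubes of side `2 N ^ (- 1 - τ)`, are used as the covers in the definition of the Hausdorff measure. The numbers `k`, `p` have the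
density zero for a given `α`, so that a bound for the number of exceptional `n` alone does not say anything about them.
-/

set_option autoImplicit false

open Finset Filter MeasureTheory

namespace Pool.Agent.Results.MP_5f6ee5_nt.Approximations

/-- `P k`: the number of the odd primes `p` with `(2 k - 1) ^ 2 < p < (2 k + 1) ^ 2`. -/
noncomputable def P (k : ℕ) : ℕ := {p : ℕ | p.Prime ∧ Odd p ∧ (2 * k - 1) ^ 2 < p ∧ p < (2 * k + 1) ^ 2}.ncard

/-- `P k ≥ 2`, even `P k ≥ c k / log k`, and every interval `(a, a + H]` between `(2 k - 1) ^ 2` and `(2 k + 1) ^ 2` with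
`H ≥ k ^ (1 - δ)` contains at least `c H / log k` primes. -/
def Good (c δ : ℝ) (k : ℕ) : Prop :=
  2 ≤ P k ∧ c * k / Real.log k ≤ P k ∧
  ∀ a H : ℕ, (2 * k - 1) ^ 2 ≤ a → a + H ≤ (2 * k + 1) ^ 2 → (k : ℝ) ^ (1 - δ) ≤ H →
    c * H / Real.log k ≤ (((Finset.Ioc a (a + H)).filter Nat.Prime).card : ℝ)

/-- The level sets of `P` in the boxes `|w_i| ≤ X` have at most `C X ^ (r - l + ε)` elements. -/
def SmallLevels {r : ℕ} (P : MvPolynomial (Fin r) ℤ) (l : ℝ) : Prop :=
  l ≤ r ∧ ∀ ε : ℝ, 0 < ε → ∃ C : ℝ, ∀ X : ℕ, 1 ≤ X → ∀ v : ℤ,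
    ({w : Fin r → ℤ | (∀ i, |w i| ≤ X) ∧ MvPolynomial.eval w P = v}.ncard : ℝ) ≤ C * (X : ℝ) ^ (r - l + ε)

/-- the polynomial `x_0 ^ 2 + x_1 ^ 2 + Q(x_2, x_3, …)` -/
noncomputable def squaresPlus {r : ℕ} (Q : MvPolynomial (Fin r) ℤ) : MvPolynomial (Fin (r + 2)) ℤ :=
  MvPolynomial.X 0 ^ 2 + MvPolynomial.X 1 ^ 2 + MvPolynomial.rename (fun i : Fin r => i.succ.succ) Q

/-- `(k, p)` is an approximation of `α` of exponent `τ` and shift `γ`: `|k α_i - γ_i - p_i| ≤ k ^ (-τ)` for all `i`. -/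
def Approx {d : ℕ} (τ : ℝ) (γ α : Fin d → ℝ) (k : ℕ) (p : Fin d → ℤ) : Prop :=
  ∀ i, |(k : ℝ) * α i - γ i - p i| ≤ (k : ℝ) ^ (-τ)

lemma good_of_rich {c δ : ℝ} (hc : 0 < c) (hδ : 0 < δ) (hδ1 : δ ≤ 1) {k : ℕ} (hk : 2 ≤ k)
    (hkδ : 2 ≤ (k : ℝ) ^ (δ / 2)) (hkl : Real.log k ≤ c / 4 * k) (h : Pool.Agent.S821.PowIdx.RichPow c (1 - δ) 2 3 (2 * k)) : Good (c / 2) (δ / 2) k := by
  have hk2 : (2 : ℝ) ≤ k := by exact_mod_cast hk
  have hk0 : (0 : ℝ) < k := by linarith
  have hlog : 0 < Real.log k := Real.log_pos (by linarith)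
  have hw : ∀ a H : ℕ, (2 * k - 1) ^ 2 ≤ a → a + H ≤ (2 * k + 1) ^ 2 → (k : ℝ) ^ (1 - δ / 2) ≤ H →
      c / 2 * H / Real.log k ≤ (((Finset.Ioc a (a + H)).filter Nat.Prime).card : ℝ) := by
    intro a H g1 g2 g3
    have e1 : ((2 * k - 1 : ℕ) : ℝ) = 2 * k - 1 := by
      rw [Nat.cast_sub (by omega)]
      push_cast
      ring
    have g1' : (2 * (k : ℝ) - 1) ^ 2 ≤ a := by
      rw [← e1]
      exact_mod_cast g1
    have g2' : (a : ℝ) + H ≤ (2 * k + 1) ^ 2 := by exact_mod_cast g2
    have hH : (0 : ℝ) ≤ H := Nat.cast_nonneg _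
    have h1 := h a H (by
      rw [Real.rpow_two, show (2 : ℝ) - 1 = 1 by norm_num, Real.rpow_one, abs_le]
      push_cast
      constructor <;> nlinarith) (by
      rw [Real.rpow_two, show (2 : ℝ) - 1 = 1 by norm_num, Real.rpow_one, abs_le]
      push_cast
      constructor <;> nlinarith) (by
      refine le_trans ?_ g3
      push_cast
      rw [Real.mul_rpow (by norm_num) hk0.le]
      have e2 : (2 : ℝ) ^ (1 - δ) ≤ 2 := by
        calc (2 : ℝ) ^ (1 - δ) ≤ 2 ^ (1 : ℝ) := Real.rpow_le_rpow_of_exponent_le (by norm_num) (by linarith)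
          _ = 2 := Real.rpow_one 2
      calc (2 : ℝ) ^ (1 - δ) * (k : ℝ) ^ (1 - δ) ≤ (k : ℝ) ^ (δ / 2) * (k : ℝ) ^ (1 - δ) :=
            mul_le_mul_of_nonneg_right (e2.trans hkδ) (by positivity)
        _ = (k : ℝ) ^ (1 - δ / 2) := by
            rw [← Real.rpow_add hk0]
            congr 1
            ring)
    refine le_trans ?_ h1
    have hl2 : Real.log ((2 * k : ℕ) : ℝ) ≤ 2 * Real.log k := by
      push_cast
      rw [Real.log_mul (by norm_num) hk0.ne']
      have := Real.log_le_log (by norm_num : (0 : ℝ) < 2) hk2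
      linarith
    have hl1 : 0 < Real.log ((2 * k : ℕ) : ℝ) := Real.log_pos (by push_cast; linarith)
    rw [div_le_div_iff₀ hlog hl1]
    calc c / 2 * H * Real.log ((2 * k : ℕ) : ℝ) ≤ c / 2 * H * (2 * Real.log k) := by gcongr
      _ = c * H * Real.log k := by ring
  have hkk : (k : ℝ) ^ (1 - δ / 2) ≤ k := by
    calc (k : ℝ) ^ (1 - δ / 2) ≤ (k : ℝ) ^ (1 : ℝ) := Real.rpow_le_rpow_of_exponent_le (by linarith) (by linarith)
      _ = k := Real.rpow_one _
  have hP : c / 2 * k / Real.log k ≤ P k := by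
    obtain ⟨j, rfl⟩ : ∃ j, k = j + 1 := ⟨k - 1, by omega⟩
    have e3 : 2 * (j + 1) - 1 = 2 * j + 1 := by omega
    have h4 := hw ((2 * (j + 1) - 1) ^ 2) (j + 1) le_rfl (by rw [e3]; nlinarith) hkk
    refine h4.trans ?_
    unfold P
    rw [← Set.ncard_coe_finset]
    refine Nat.cast_le.2 (Set.ncard_le_ncard ?_ ((Set.finite_Iio ((2 * (j + 1) + 1) ^ 2)).subset (fun p hp => hp.2.2.2)))
    intro p hp
    rw [mem_coe, mem_filter, mem_Ioc] at hp
    obtain ⟨⟨h7, h8⟩, h9⟩ := hp
    rw [e3] at h7 h8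
    refine ⟨h9, h9.odd_of_ne_two ?_, by rw [e3]; exact h7, lt_of_le_of_lt h8 (by nlinarith)⟩
    intro h2
    rw [h2] at h7
    nlinarith
  refine ⟨?_, hP, hw⟩
  have h5 : 2 ≤ c / 2 * k / Real.log k := by
    rw [le_div_iff₀ hlog]
    linarith
  exact_mod_cast h5.trans hP

/-- **Primes between the odd squares at the approximations of almost all points.** There are `c > 0` and `δ > 0` such that for all
`d ≥ 1`, `D ≥ 1`, `τ ≥ 0`, `w ≥ 0`, `l` and all `γ ∈ ℝ ^ d` there is a set `E` of Hausdorff dimension at most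
`(d + 1 - l + 0.612 D + w - δ) / (1 + τ)` (of Lebesgue measure zero if `0.612 D + w + 1 ≤ l + d τ`), such that for all `α ∉ E` and all
integral polynomials `P` in `d + 1` variables of degree at most `D` with `SmallLevels P l`, for all large `k` and all integral vectors
`p` with `|k α_i - γ_i - p_i| ≤ k ^ (-τ)`, ALL the integers `n ≥ 1` with `|n - P(k, p)| ≤ k ^ w` are good: `P n ≥ 2` and `P n ≥ c n / log n`,
and every interval between `(2 n - 1) ^ 2` and `(2 n + 1) ^ 2` of length `H ≥ n ^ (1 - δ)` contains at least `c H / log n` primes. All the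
nonconstant polynomials, such as the linear forms, have `SmallLevels P 1`, and the polynomials
`x_0 ^ 2 + x_1 ^ 2 + Q(x_2, …)` have `SmallLevels P 2`. -/
theorem result :
    (∃ c δ : ℝ, 0 < c ∧ 0 < δ ∧ ∀ (d D : ℕ) (τ w l : ℝ) (γ : Fin d → ℝ), 1 ≤ d → 1 ≤ D → 0 ≤ τ → 0 ≤ w →
      ∃ E : Set (Fin d → ℝ), dimH E ≤ ENNReal.ofReal ((d + 1 - l + 0.612 * D + w - δ) / (1 + τ)) ∧
        (0.612 * D + w + 1 ≤ l + d * τ → volume E = 0) ∧
        ∀ α, α ∉ E → ∀ P : MvPolynomial (Fin (d + 1)) ℤ, P.totalDegree ≤ D → SmallLevels P l →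
          ∀ᶠ k : ℕ in atTop, ∀ p : Fin d → ℤ, Approx τ γ α k p → ∀ n : ℕ, 1 ≤ n →
            |(n : ℝ) - (MvPolynomial.eval (Fin.cons (k : ℤ) p : Fin (d + 1) → ℤ) P : ℤ)| ≤ (k : ℝ) ^ w →
              Good c δ n) ∧
    (∀ (r : ℕ) (P : MvPolynomial (Fin r) ℤ), (∀ c : ℤ, P ≠ MvPolynomial.C c) → SmallLevels P 1) ∧
    ∀ (r : ℕ) (Q : MvPolynomial (Fin r) ℤ), SmallLevels (squaresPlus Q) 2 := by
  refine ⟨?_, fun r P hP => Pool.Agent.U513.AP.lev_one P hP, fun r Q => Pool.Agent.U513.AP.lev_squares Q⟩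
  obtain ⟨c, δ, hc, hδ, hδ1, h⟩ := Pool.Agent.U513.AP.square_law
  obtain ⟨k1, hk1⟩ : ∃ k1 : ℕ, ∀ k : ℕ, k1 ≤ k → Pool.Agent.S821.PowIdx.RichPow c (1 - δ) 2 3 (2 * k) →
      Good (c / 2) (δ / 2) k := by
    have t1 : Tendsto (fun n : ℕ => (n : ℝ) ^ (δ / 2)) atTop atTop :=
      (tendsto_rpow_atTop (by positivity)).comp tendsto_natCast_atTop_atTop
    have t2 : ∀ᶠ n : ℕ in atTop, Real.log n ≤ c / 4 * n := by
      have h2 := tendsto_natCast_atTop_atTop (R := ℝ) |>.eventually
        (Real.isLittleO_log_id_atTop.bound (show (0 : ℝ) < c / 4 by positivity))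
      filter_upwards [h2] with n hn
      have h3 := (le_abs_self (Real.log n)).trans hn
      simpa using h3
    obtain ⟨k1, hk1⟩ := eventually_atTop.1 ((t1.eventually_ge_atTop 2).and ((eventually_ge_atTop 2).and t2))
    exact ⟨k1, fun k hk hR => good_of_rich hc hδ (by linarith) (hk1 k hk).2.1 (hk1 k hk).1 (hk1 k hk).2.2 hR⟩
  refine ⟨c / 2, δ / 2, by positivity, by positivity, fun d D τ w l γ hd hD hτ hw => ?_⟩
  obtain ⟨E, h1, h2, h3⟩ := h (Good (c / 2) (δ / 2)) 2 k1 (by norm_num) hk1 d D τ w l γ hd hD hτ hw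
  exact ⟨E, h1, h2, h3⟩

end Pool.Agent.Results.MP_5f6ee5_nt.Approximations
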