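import Mathlib
import Pool.Agent.U464.GD.Inter

/-!
# Almost prime tuples with restricted digits in EVERY interval between consecutive odd squares

Let `x = b ^ K` and let `[u, u + L)` be any interval with `3 x ≤ L` and `u + L ≤ x ^ D`, for example the whole interval
between the odd squares `(2 j - 1) ^ 2` and `(2 j + 1) ^ 2` of the problem for EVERY `j ≥ x` with `(2 j + 1) ^ 2 ≤ x ^ D`,
or any of its subintervals of length at least a small power of `j`. Restrict the `K` last digits of `n` in base `b`: the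
`i`-th digit belongs to `A i`, where the sets `A i` are arbitrary, only their product `N = ∏ |A i|` is at least
`exp (- δ K) x`. For ALL admissible tuples `P` of `k` positive even integers `m ≤ x ^ D`, uniformly in `P`, in the
interval and in the sets `A i`, with `C_P` the constant of Hardy and Littlewood, its product cut at `x`:

* the number of these `n` such that none of the numbers `n`, `n + m`, `m ∈ P`, has a prime factor up to `x ^ (1 / r)` is
  at most a constant times `L (N / x) C_P / K ^ (k + 1)`; this includes all the `n` for which `n` and all `n + m` are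
  primes larger than `x ^ (1 / r)`;
* if there is no local obstruction at the primes dividing `b`, then at least a constant times as many of these `n` are
  such that moreover the product of `n` and of all `n + m` has at most `r` prime factors.

For `k = 1` these are pairs `n`, `n + m` of almost primes, for every even `m`, while the problem asks for two primes.
Proof: `Pool/Agent/U464/PD/Tup.lean`, from the sieve for integers with restricted digits
`Pool.Agent.Y816.PD.uni_fun` of the starting library, and `Pool/Agent/U464/GD/Inter.lean` (arbitrary intervals).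
-/

set_option autoImplicit false

namespace Pool.Agent.Results.MP_5f6ee5_nt.RestrictedDigitTuples

open Finset Filter

/-- The number of the residue classes modulo `q` occupied by `0` and the elements of `P`. -/
def w (P : Finset ℕ) (q : ℕ) : ℕ := ((insert 0 P).image (fun m => m % q)).card

/-- The constant `C_P` of Hardy and Littlewood, the product cut at `x`: `2 ^ k` times the product over the odd primes
`q ≤ x` of `(1 - w q / q) / (1 - 1 / q) ^ (k + 1)`, `k = |P|`. -/
noncomputable def partialC (P : Finset ℕ) (x : ℕ) : ℝ :=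
  2 ^ P.card * ∏ q ∈ (Icc 3 x).filter Nat.Prime, ((1 - (w P q : ℝ) / q) / (1 - 1 / (q : ℝ)) ^ (P.card + 1))

/-- The `n` in `[u, u + L)` whose `i`-th digit in base `b` (the digit of the units for `i = 0`) belongs
to `A i` for all `i < K`, such that all prime factors of `n` and of the `n + m`, `m ∈ P`, are larger than
`b ^ (K / r)`. -/
def Rough (P : Finset ℕ) (b K u L r : ℕ) (A : ℕ → Finset ℕ) : Set ℕ :=
  {n | u ≤ n ∧ n < u + L ∧ (∀ i < K, n / b ^ i % b ∈ A i) ∧
    ∀ m, m = 0 ∨ m ∈ P → ∀ q : ℕ, q.Prime → q ∣ n + m → b ^ K < q ^ r}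

/-- The elements `n` of `Rough` for which the product of `n` and of the `n + m`, `m ∈ P`, has at most `r` prime
factors, counted with multiplicity. -/
def AlmostPrime (P : Finset ℕ) (b K u L r : ℕ) (A : ℕ → Finset ℕ) : Set ℕ :=
  {n | n ∈ Rough P b K u L r A ∧ (n * ∏ m ∈ P, (n + m)).primeFactorsList.length ≤ r}

theorem w_two {P : Finset ℕ} (h : ∀ m ∈ P, Even m) : w P 2 = 1 := by
  have e : (insert 0 P).image (fun m => m % 2) = {0} := by
    apply Finset.eq_singleton_iff_unique_mem.2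
    refine ⟨mem_image.2 ⟨0, mem_insert_self _ _, rfl⟩, fun y hy => ?_⟩
    obtain ⟨m, hm, rfl⟩ := mem_image.1 hy
    rcases mem_insert.1 hm with h0 | h1
    · subst h0; rfl
    · exact Nat.even_iff.1 (h m h1)
  unfold w
  rw [e, card_singleton]

theorem sing_eq {P : Finset ℕ} (h : ∀ m ∈ P, 0 < m ∧ Even m) {x : ℕ} (hx : 2 ≤ x) :
    Pool.Agent.U464.PD.sing (insert 0 P) x = partialC P x := by
  have h0 : (0 : ℕ) ∉ P := fun h1 => (h 0 h1).1.ne' rfl
  have hc : (insert 0 P).card = P.card + 1 := card_insert_of_notMem h0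
  have e : (Icc 1 x).filter Nat.Prime = insert 2 ((Icc 3 x).filter Nat.Prime) := by
    ext q
    simp only [mem_filter, mem_Icc, mem_insert]
    constructor
    · rintro ⟨⟨_, h2⟩, h3⟩
      rcases Nat.lt_or_ge 2 q with h4 | h4
      · exact Or.inr ⟨⟨h4, h2⟩, h3⟩
      · exact Or.inl (le_antisymm h4 h3.two_le)
    · rintro (rfl | ⟨⟨h1, h2⟩, h3⟩)
      · exact ⟨⟨by norm_num, hx⟩, Nat.prime_two⟩
      · exact ⟨⟨by omega, h2⟩, h3⟩
  unfold Pool.Agent.U464.PD.sing partialC
  rw [e, prod_insert (by simp), hc]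
  congr 1
  have h2 : Pool.Agent.U464.PD.nu (insert 0 P) 2 = 1 := w_two fun m hm => (h m hm).2
  rw [h2]
  norm_num
  rw [pow_succ]
  field_simp
  rw [← mul_pow]
  norm_num

theorem partialC_nonneg {P : Finset ℕ} (h : ∀ q : ℕ, q.Prime → w P q < q) (x : ℕ) : 0 ≤ partialC P x := by
  unfold partialC
  refine mul_nonneg (by positivity) (prod_nonneg fun q hq => ?_)
  have hq' := (mem_filter.1 hq).2
  have h1 : (1 : ℝ) ≤ q := by exact_mod_cast hq'.one_lt.le
  have h2 : (w P q : ℝ) ≤ q := by exact_mod_cast (h q hq').le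
  refine div_nonneg ?_ (pow_nonneg ?_ _)
  · rw [sub_nonneg, div_le_one (by linarith)]
    exact h2
  · rw [sub_nonneg, div_le_one (by linarith)]
    exact h1

/-- **Almost prime tuples with restricted digits in every interval.** -/
theorem result (k D : ℕ) :
    ∃ δ : ℝ, 0 < δ ∧ ∃ r₀ : ℕ, 2 ≤ r₀ ∧ ∀ r : ℕ, r₀ ≤ r → ∀ b : ℕ, 2 ≤ b → ∃ κ C : ℝ, 0 < κ ∧ 0 < C ∧
      ∀ᶠ K : ℕ in atTop, ∀ P : Finset ℕ, P.card = k → (∀ m ∈ P, 0 < m ∧ Even m ∧ m ≤ b ^ (D * K)) →
        (∀ q : ℕ, q.Prime → w P q < q) → ∀ u L : ℕ, 3 * b ^ K ≤ L → u + L ≤ b ^ (D * K) →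
        ∀ A : ℕ → Finset ℕ, (∀ i < K, A i ⊆ range b) →
          (b : ℝ) ^ K ≤ Real.exp (δ * K) * ∏ i ∈ range K, ((A i).card : ℝ) →
          ((∃ d ∈ A 0, d.Coprime b ∧ ∀ m ∈ P, (d + m).Coprime b) →
            κ * ((L : ℝ) / (b : ℝ) ^ K * ∏ i ∈ range K, ((A i).card : ℝ)) *
              (partialC P (b ^ K) / (K : ℝ) ^ (k + 1)) ≤ ((AlmostPrime P b K u L r A).ncard : ℝ)) ∧
          ((Rough P b K u L r A).ncard : ℝ) ≤
            C * ((L : ℝ) / (b : ℝ) ^ K * ∏ i ∈ range K, ((A i).card : ℝ)) *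
              (partialC P (b ^ K) / (K : ℝ) ^ (k + 1)) := by
  obtain ⟨δ, hδ, r0, hr0, h⟩ := Pool.Agent.U464.PD.tup (k + 1) D (by omega)
  refine ⟨δ, hδ, r0, hr0, fun r hr b hb => ?_⟩
  obtain ⟨κ, C, hκ, hC, h1⟩ := h r hr b hb
  refine ⟨κ / 3, 2 * C, by positivity, by positivity, ?_⟩
  filter_upwards [h1, eventually_ge_atTop 1] with K hK hK1 P hP hm hadm u L hL huL A hA hprod
  have h0 : (0 : ℕ) ∉ P := fun h1 => (hm 0 h1).1.ne' rfl
  have hbK2 : 2 ≤ b ^ K := by
    calc 2 = 2 ^ 1 := by norm_num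
      _ ≤ 2 ^ K := Nat.pow_le_pow_right (by norm_num) (by omega)
      _ ≤ b ^ K := Nat.pow_le_pow_left hb K
  obtain ⟨N, hN⟩ : ∃ N : ℝ, N = ∏ i ∈ range K, ((A i).card : ℝ) := ⟨_, rfl⟩
  have hN0 : 0 ≤ N := by rw [hN]; exact prod_nonneg fun _ _ => Nat.cast_nonneg _
  have hC0 := partialC_nonneg hadm (b ^ K)
  have hw : ∀ t : ℕ, t ≤ u + L → ((∃ d ∈ A 0, d.Coprime b ∧ ∀ m ∈ P, (d + m).Coprime b) →
      κ * N * (partialC P (b ^ K) / (K : ℝ) ^ (k + 1)) ≤
        ((Pool.Agent.U464.PD.almostT (insert 0 P) b K t r A).ncard : ℝ)) ∧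
      ((Pool.Agent.U464.PD.roughT (insert 0 P) b K t r A).ncard : ℝ) ≤
        C * N * (partialC P (b ^ K) / (K : ℝ) ^ (k + 1)) := by
    intro t ht
    have h2 := hK (insert 0 P) (by rw [card_insert_of_notMem h0, hP])
      (fun m hm' => by
        rcases mem_insert.1 hm' with h3 | h3
        · rw [h3]; exact Nat.zero_le _
        · exact (hm m h3).2.2) hadm t (ht.trans huL) A hA hprod
    rw [sing_eq (fun m hm' => ⟨(hm m hm').1, (hm m hm').2.1⟩) hbK2] at h2
    have e : Pool.Agent.Y816.PD.NA K A = N := hN.symm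
    rw [e] at h2
    refine ⟨fun hd => h2.1 ?_, h2.2⟩
    obtain ⟨d, hdA, hd0, hdm⟩ := hd
    refine ⟨d, hdA, fun m hm' => ?_⟩
    rcases mem_insert.1 hm' with h3 | h3
    · rw [h3, add_zero]; exact hd0
    · exact hdm m h3
  obtain ⟨S, hS⟩ : ∃ S : Set ℕ, S = {n | (∀ i < K, n / b ^ i % b ∈ A i) ∧
    ∀ m, m = 0 ∨ m ∈ P → ∀ q : ℕ, q.Prime → q ∣ n + m → b ^ K < q ^ r} := ⟨_, rfl⟩
  obtain ⟨T, hT⟩ : ∃ T : Set ℕ, T = {n | n ∈ S ∧ (n * ∏ m ∈ P, (n + m)).primeFactorsList.length ≤ r} := ⟨_, rfl⟩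
  have hR : ∀ t, Pool.Agent.U464.GD.cnt S (b ^ K * t) (b ^ K * (t + 1)) =
      (Pool.Agent.U464.PD.roughT (insert 0 P) b K t r A).ncard := by
    intro t
    unfold Pool.Agent.U464.GD.cnt Pool.Agent.U464.PD.roughT
    congr 1
    ext n
    simp only [hS, Set.mem_ofPred_eq, mem_insert]
  have hAl : ∀ t, Pool.Agent.U464.GD.cnt T (b ^ K * t) (b ^ K * (t + 1)) =
      (Pool.Agent.U464.PD.almostT (insert 0 P) b K t r A).ncard := by
    intro t
    have e2 : ∀ n : ℕ, ∏ m ∈ insert 0 P, (n + m) = n * ∏ m ∈ P, (n + m) := fun n => by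
      rw [prod_insert h0, add_zero]
    unfold Pool.Agent.U464.GD.cnt Pool.Agent.U464.PD.almostT Pool.Agent.U464.PD.roughT
    congr 1
    ext n
    simp only [hT, hS, Set.mem_ofPred_eq, mem_insert, e2]
    tauto
  have hR2 : (Rough P b K u L r A).ncard = Pool.Agent.U464.GD.cnt S u (u + L) := by
    unfold Pool.Agent.U464.GD.cnt Rough
    congr 1
    ext n
    simp only [hS, Set.mem_ofPred_eq]
  have hA2 : (AlmostPrime P b K u L r A).ncard = Pool.Agent.U464.GD.cnt T u (u + L) := by
    unfold Pool.Agent.U464.GD.cnt AlmostPrime Rough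
    congr 1
    ext n
    simp only [hT, hS, Set.mem_ofPred_eq]
    tauto
  have hx : ((b ^ K : ℕ) : ℝ) = (b : ℝ) ^ K := by push_cast; rfl
  rw [← hN]
  constructor
  · intro hd
    have h3 := Pool.Agent.U464.GD.cnt_lower T (b ^ K) u L (by omega) hL
      (κ * N * (partialC P (b ^ K) / (K : ℝ) ^ (k + 1))) (by positivity) (fun t ht => by
        rw [hAl]
        exact (hw t ht).1 hd)
    rw [hA2]
    refine le_trans (le_of_eq ?_) h3
    rw [hx]
    ring
  · have h3 := Pool.Agent.U464.GD.cnt_upper S (b ^ K) u L (by omega) hL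
      (C * N * (partialC P (b ^ K) / (K : ℝ) ^ (k + 1))) (by positivity) (fun t ht => by
        rw [hR]
        exact (hw t ht).2)
    rw [hR2]
    refine h3.trans (le_of_eq ?_)
    rw [hx]
    ring

end Pool.Agent.Results.MP_5f6ee5_nt.RestrictedDigitTuples
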