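import Mathlib
import Pool.Agent.U766.HO.Most

/-!
# MP_5f6ee5_nt (two primes between consecutive odd squares): the same pairs and strings of consecutive primes between the odd
squares `(2 k - 1) ^ 2` and `(2 k + 1) ^ 2` for all the members `k` of configurations in relatively dense subsets of
arbitrary, possibly thin, sets of integers

The problem asks whether there are two primes between `(2 k - 1) ^ 2` and `(2 k + 1) ^ 2` for every `k`.  It is not known
whether there is any difference `g` such that infinitely many of these intervals contain a prime pair `p, p + g`, for instance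
for all the `k` of a long progression.  We show: let `S` be any set of integers with at least `N ^ 0.612` elements in
`[N, 2 N]` for large `N`, let `A ⊆ S ∩ [N, 2 N]` be a subset of positive relative density `ρ`, and let `𝓕` be a family of
finite sets for which there is a density theorem relative to `S`.  Then for a positive proportion of all the vectors `g` of
`l` gaps in `[1, K log N] ^ l` the set `A` contains a member `F` of the family such that for ALL the `k ∈ F` the interval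
between the odd squares contains strings of `l + 1` consecutive primes with the gaps `g`, at least `c k / (log k) ^ (l + 1)` of
them, which is the expected order of magnitude.

In particular (Szemerédi) every dense set of integers contains `m`-term progressions with this property, and
(relative Szemerédi theorem) every relatively dense set of PRIMES `k` contains `m`-term progressions of primes
`k, k + d, …` with `d ≤ (log k) ^ B` such that each of the intervals contains the expected number of pairs of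
consecutive primes with the same difference `g`, for a positive proportion of all `g ≤ K log N`.

Method: the counting theorem for short intervals with few primes (`Pool.Agent.Q278.KT.mainp_half`) gives the right lower bound
for the number of primes between the odd squares for all `k ≤ N` but `N ^ 0.612` exceptions; the upper bound sieve and the second
moment of the singular series give in every such interval a positive proportion of all the vectors
(`Pool.Agent.U766.OP.box_many`); then double counting and the density theorem.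
-/

set_option autoImplicit false

namespace Pool.Agent.Results.MP_5f6ee5_nt.SamePrimesAlongProgressions

open Filter Finset
open Pool.Agent.U766.HO (sec Thick Reg)

/-- the primes, numbered from `pr 0 = 2` -/
noncomputable def pr (n : ℕ) : ℕ := Nat.nth Nat.Prime n

/-- the number of the strings of `l + 1` consecutive primes between `(2 k - 1) ^ 2` and `(2 k + 1) ^ 2` with the gaps
`g 0, …, g (l - 1)` -/
noncomputable def strings {l : ℕ} (g : Fin l → ℕ) (k : ℕ) : ℕ :=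
  {q : ℕ | ∃ n, pr n = q ∧ (2 * k - 1) ^ 2 < q ∧ pr (n + l) < (2 * k + 1) ^ 2 ∧
    ∀ i : Fin l, pr (n + i + 1) = pr (n + i) + g i}.ncard

/-- the number of the primes `p` such that `p + g` is the next prime and both are between `(2 k - 1) ^ 2` and
`(2 k + 1) ^ 2` -/
noncomputable def pairs (g k : ℕ) : ℕ :=
  {p : ℕ | (2 * k - 1) ^ 2 < p ∧ p + g < (2 * k + 1) ^ 2 ∧ p.Prime ∧ (p + g).Prime ∧
    ∀ r : ℕ, p < r → r < p + g → ¬ r.Prime}.ncard

lemma Pos_le {l : ℕ} (g : Fin l → ℕ) {k : ℕ} (hk : 1 ≤ k) :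
    (Pool.Agent.U766.OP.Pos g ((2 * k) ^ 2 - 2 * k) (2 * (2 * k))).card ≤ strings g k := by
  classical
  unfold strings
  rw [← Set.ncard_coe_finset]
  apply Set.ncard_le_ncard
  · intro q hq
    unfold Pool.Agent.U766.OP.Pos at hq
    rw [mem_coe, mem_filter, mem_Ioc] at hq
    obtain ⟨⟨h1, h2⟩, n, h3, h4, h5⟩ := hq
    obtain ⟨j, rfl⟩ : ∃ j, k = j + 1 := ⟨k - 1, by omega⟩
    have e1 : 2 * (j + 1) - 1 = 2 * j + 1 := by omega
    have e2 : (2 * (j + 1)) ^ 2 - 2 * (j + 1) = (2 * j + 1) ^ 2 + (2 * j + 1) := by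
      have : (2 * (j + 1)) ^ 2 = (2 * j + 1) ^ 2 + (2 * j + 1) + 2 * (j + 1) := by ring
      omega
    rw [e2] at h1 h4
    refine ⟨n, h3, ?_, ?_, h5⟩
    · rw [e1]
      omega
    · refine lt_of_le_of_lt h4 ?_
      nlinarith
  · apply Set.Finite.subset (Set.finite_Iio ((2 * k + 1) ^ 2))
    rintro q ⟨n, rfl, -, h2, -⟩
    rw [Set.mem_Iio]
    refine lt_of_le_of_lt ?_ h2
    exact (Nat.nth_strictMono Nat.infinite_setOfPred_prime).monotone (by omega)

lemma strings_le_pairs (g k : ℕ) : strings (fun _ : Fin 1 => g) k ≤ pairs g k := by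
  classical
  unfold strings pairs
  apply Set.ncard_le_ncard
  · rintro q ⟨n, rfl, h1, h2, h3⟩
    have h4 : pr (n + 1) = pr n + g := h3 0
    rw [h4] at h2
    refine ⟨h1, h2, Nat.prime_nth_prime n, by rw [← h4]; exact Nat.prime_nth_prime _, fun r hr1 hr2 hr => ?_⟩
    rw [← h4] at hr2
    have h5 : Nat.nth Nat.Prime (Nat.count Nat.Prime r) = r := Nat.nth_count hr
    have hm : StrictMono (Nat.nth Nat.Prime) := Nat.nth_strictMono Nat.infinite_setOfPred_prime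
    have h6 : n < Nat.count Nat.Prime r := by
      by_contra hcon
      have := hm.monotone (not_lt.1 hcon)
      rw [h5] at this
      unfold pr at hr1
      omega
    have h7 : Nat.count Nat.Prime r < n + 1 := by
      by_contra hcon
      have := hm.monotone (not_lt.1 hcon)
      rw [h5] at this
      unfold pr at hr2
      omega
    omega
  · apply Set.Finite.subset (Set.finite_Iio ((2 * k + 1) ^ 2))
    rintro p ⟨-, h2, -⟩
    rw [Set.mem_Iio]
    omega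

open Pool.Agent.R527.LV (pat box mem_box card_box)
open Pool.Agent.H387R2.Uni (CT)
open Pool.Agent.U766.OP (Pos Rich primesIn)

/-- **the general theorem** -/
theorem general (l : ℕ) : ∃ K c e τ : ℝ, 0 < K ∧ 0 < c ∧ 0 < e ∧ 0 < τ ∧ ∀ S : Set ℕ, Thick S → ∀ ρ : ℝ, 0 < ρ →
    ∀ 𝓕 : Set (Finset ℕ), Reg S (τ * ρ) 𝓕 → ∃ N₀ : ℕ, ∀ N : ℕ, N₀ ≤ N → ∀ A : Finset ℕ, A ⊆ sec S N →
      ρ * ((sec S N).card : ℝ) ≤ (A.card : ℝ) → ∃ G : Finset (Fin l → ℕ), e * Real.log N ^ l ≤ (G.card : ℝ) ∧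
        ∀ g ∈ G, (∀ i, 1 ≤ g i ∧ (g i : ℝ) ≤ K * Real.log N) ∧
          ∃ F ∈ 𝓕, F ⊆ A ∧ ∀ k ∈ F, c * k / Real.log k ^ (l + 1) ≤ (strings g k : ℝ) := by
  classical
  obtain ⟨c1, δ, hc1, hδ, hδ1, hfew⟩ := Pool.Agent.U766.OP.few Pool.Agent.Q278.KT.mainp_half
  obtain ⟨K, c, M, η, hK, hc, hM, hη, hbox⟩ := Pool.Agent.U766.OP.box_many l c1 hc1
  refine ⟨4 * K, c * 4 / 4 ^ (l + 1), η / 2, η / (4 * (4 * K) ^ l), by positivity, by positivity, by positivity,
    by positivity, fun S hS ρ hρ 𝓕 hReg => ?_⟩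
  obtain ⟨N1, hN1⟩ := hReg
  obtain ⟨N2, hN2⟩ := Pool.Agent.U766.HO.most c1 δ hfew 2 (by norm_num) S hS ρ hρ
  obtain ⟨X0, hX0⟩ := eventually_atTop.1 hbox
  refine ⟨max N1 (max N2 (max ⌈X0⌉₊ 4)), fun N hN A hA hAc => ?_⟩
  have a1 : N1 ≤ N := (le_max_left _ _).trans hN
  have a2 : N2 ≤ N := ((le_max_left _ _).trans (le_max_right _ _)).trans hN
  have a3 : ⌈X0⌉₊ ≤ N := (((le_max_left _ _).trans (le_max_right _ _)).trans (le_max_right _ _)).trans hN
  have a4 : 4 ≤ N := (((le_max_right _ _).trans (le_max_right _ _)).trans (le_max_right _ _)).trans hN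
  have hN4 : (4 : ℝ) ≤ N := by exact_mod_cast a4
  have hN0 : (0 : ℝ) < N := by linarith
  have hX0N : X0 ≤ N := (Nat.le_ceil _).trans (by exact_mod_cast a3)
  obtain ⟨L, hL⟩ : ∃ L : ℝ, L = Real.log N := ⟨_, rfl⟩
  have hL1 : 1 ≤ L := by
    rw [hL, Real.le_log_iff_exp_le hN0]
    have := Real.exp_one_lt_d9
    linarith
  rw [← hL]
  obtain ⟨A', hA'⟩ : ∃ A' : Finset ℕ, A' = A.filter (fun k => Rich c1 δ (2 * k)) := ⟨_, rfl⟩
  obtain ⟨h1, h2⟩ := hN2 N a2 A A' hA hAc (by rw [hA']; exact filter_subset _ _) (by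
    intro n hn hn'
    rw [hA', mem_filter] at hn'
    exact fun h => hn' ⟨hn, h⟩)
  -- sizes
  have hmem : ∀ k ∈ A, 1 ≤ k ∧ X0 ≤ (((2 * k) ^ 2 - 2 * k : ℕ) : ℝ) ∧ 4 ≤ (k : ℝ) ∧
      L ≤ Real.log (((2 * k) ^ 2 - 2 * k : ℕ) : ℝ) ∧ Real.log (((2 * k) ^ 2 - 2 * k : ℕ) : ℝ) ≤ 4 * L ∧
      Real.log ((2 * k : ℕ) : ℝ) ≤ Real.log (((2 * k) ^ 2 - 2 * k : ℕ) : ℝ) ∧
      Real.log (((2 * k) ^ 2 - 2 * k : ℕ) : ℝ) ≤ 4 * Real.log k ∧
      (((2 * k) ^ 2 - 2 * k : ℕ) : ℝ) = (2 * (k : ℝ)) ^ 2 - 2 * k := by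
    intro k hk
    have h3 := Pool.Agent.U766.HO.mem_sec.1 (hA hk)
    have h4 : (N : ℝ) ≤ k := by exact_mod_cast h3.1.1
    have h5 : (k : ℝ) ≤ 2 * N := by exact_mod_cast h3.1.2
    have e : (((2 * k) ^ 2 - 2 * k : ℕ) : ℝ) = (2 * (k : ℝ)) ^ 2 - 2 * k := by
      rw [Nat.cast_sub (by nlinarith)]
      push_cast
      ring
    have h6 : (2 * (k : ℝ)) ≤ (2 * (k : ℝ)) ^ 2 - 2 * k := by nlinarith
    have h7 : (2 * (k : ℝ)) ^ 2 - 2 * k ≤ (k : ℝ) ^ 4 := by nlinarith [sq_nonneg ((k : ℝ) ^ 2 - 2)]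
    have h9 : (2 * (k : ℝ)) ^ 2 - 2 * k ≤ (N : ℝ) ^ 4 := by
      calc (2 * (k : ℝ)) ^ 2 - 2 * k ≤ 4 * (k : ℝ) ^ 2 := by nlinarith
        _ ≤ 4 * (2 * (N : ℝ)) ^ 2 := by gcongr
        _ = 16 * (N : ℝ) ^ 2 := by ring
        _ ≤ (N : ℝ) ^ 2 * (N : ℝ) ^ 2 := by gcongr; nlinarith
        _ = (N : ℝ) ^ 4 := by ring
    rw [e]
    refine ⟨by omega, by linarith, by linarith, ?_, ?_, ?_, ?_, rfl⟩
    · rw [hL]
      exact Real.log_le_log hN0 (by linarith)
    · rw [hL, show (4 : ℝ) * Real.log N = Real.log ((N : ℝ) ^ 4) by rw [Real.log_pow]; norm_num]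
      exact Real.log_le_log (by linarith) h9
    · push_cast
      exact Real.log_le_log (by linarith) h6
    · rw [show (4 : ℝ) * Real.log k = Real.log ((k : ℝ) ^ 4) by rw [Real.log_pow]; norm_num]
      exact Real.log_le_log (by linarith) h7
  obtain ⟨G, hG⟩ : ∃ G : ℕ → Finset (Fin l → ℕ), G = fun k : ℕ =>
      (box l ⌊K * Real.log (((2 * k) ^ 2 - 2 * k : ℕ) : ℝ)⌋₊).filter (fun g =>
        c * ((2 * (2 * k) : ℕ) : ℝ) / Real.log (((2 * k) ^ 2 - 2 * k : ℕ) : ℝ) ^ (l + 1) ≤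
          ((Pos g ((2 * k) ^ 2 - 2 * k) (2 * (2 * k))).card : ℝ) ∧ CT (pat g) ≤ M) := ⟨_, rfl⟩
  obtain ⟨T, hT⟩ : ∃ T : Finset (Fin l → ℕ), T = box l ⌊4 * K * L⌋₊ := ⟨_, rfl⟩
  have hA'A : A' ⊆ A := by rw [hA']; exact filter_subset _ _
  have hGT : ∀ k ∈ A', G k ⊆ T := by
    intro k hk g hg
    obtain ⟨-, -, -, -, h7, -⟩ := hmem k (hA'A hk)
    rw [hG, mem_filter, mem_box] at hg
    rw [hT, mem_box]
    intro i
    refine ⟨(hg.1 i).1, (hg.1 i).2.trans (Nat.floor_le_floor ?_)⟩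
    nlinarith
  have hTc : (T.card : ℝ) ≤ (4 * K * L) ^ l := by
    rw [hT, card_box]
    push_cast
    exact pow_le_pow_left₀ (Nat.cast_nonneg _) (Nat.floor_le (by positivity)) _
  have hGe : ∀ k ∈ A', η * L ^ l ≤ ((G k).card : ℝ) := by
    intro k hk
    obtain ⟨b1, b2, b3, b4, b5, b6, b7, b8⟩ := hmem k (hA'A hk)
    have hrich : Rich c1 δ (2 * k) := by
      rw [hA', mem_filter] at hk
      exact hk.2
    have h2k : (1 : ℝ) ≤ ((2 * k : ℕ) : ℝ) := by push_cast; linarith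
    have h2k2 : 2 * k ≤ (2 * k) ^ 2 := by nlinarith
    have h3 := hrich ((2 * k) ^ 2 - 2 * k) (2 * (2 * k)) (by omega) (by omega) (by
      calc ((2 * k : ℕ) : ℝ) ^ (1 - δ) ≤ ((2 * k : ℕ) : ℝ) ^ (1 : ℝ) :=
            Real.rpow_le_rpow_of_exponent_le h2k (by linarith)
        _ = ((2 * k : ℕ) : ℝ) := Real.rpow_one _
        _ ≤ ((2 * (2 * k) : ℕ) : ℝ) := by push_cast; linarith)
    have hlk : 0 < Real.log ((2 * k : ℕ) : ℝ) := Real.log_pos (by push_cast; linarith)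
    have h4 := hX0 _ b2 ((2 * k) ^ 2 - 2 * k) (2 * (2 * k)) le_rfl (by
        rw [b8]
        push_cast
        nlinarith) (by
        rw [Real.sqrt_le_left (by positivity), b8]
        push_cast
        nlinarith) (by
        refine le_trans ?_ h3
        gcongr)
    rw [hG]
    refine le_trans ?_ h4
    gcongr
  obtain ⟨T', hT'T, hT'c, hT'⟩ := Pool.Agent.U766.HO.common (e := η * L ^ l) (b := (4 * K * L) ^ l) (by positivity)
    (by positivity) (N := N) (S := S) (𝓕 := 𝓕) (ρ := ρ) (by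
      intro A0 hA0 hA0c
      refine hN1 N a1 A0 hA0 ?_
      refine le_trans (le_of_eq ?_) hA0c
      have : 0 < L ^ l := by positivity
      rw [mul_pow (4 * K) L]
      field_simp) hA hAc hA'A h1 h2 T G hGT hTc hGe
  refine ⟨T', by rw [show η / 2 * L ^ l = η * L ^ l / 2 by ring]; exact hT'c, fun g hg => ?_⟩
  have hgT := hT'T hg
  rw [hT, mem_box] at hgT
  obtain ⟨F, hF𝓕, hFA, hF⟩ := hT' g hg
  refine ⟨fun i => ⟨(hgT i).1, ?_⟩, F, hF𝓕, hFA, fun k hk => ?_⟩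
  · have h3 : (g i : ℝ) ≤ (⌊4 * K * L⌋₊ : ℝ) := by exact_mod_cast (hgT i).2
    exact h3.trans (Nat.floor_le (by positivity))
  · have h3 := hF k hk
    obtain ⟨b1, b2, b3, b4, b5, b6, b7, b8⟩ := hmem k (hFA hk)
    rw [hG, mem_filter] at h3
    have h4 : ((Pos g ((2 * k) ^ 2 - 2 * k) (2 * (2 * k))).card : ℝ) ≤ (strings g k : ℝ) := by
      exact_mod_cast Pos_le g b1
    refine le_trans (le_trans ?_ h3.2.1) h4
    have hlk : 0 < Real.log k := Real.log_pos (by linarith)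
    have hlx : 0 < Real.log (((2 * k) ^ 2 - 2 * k : ℕ) : ℝ) := by linarith
    calc c * 4 / 4 ^ (l + 1) * k / Real.log k ^ (l + 1)
        = c * (4 * k) / (4 * Real.log k) ^ (l + 1) := by
          rw [mul_pow]
          field_simp
      _ ≤ c * (4 * k) / Real.log (((2 * k) ^ 2 - 2 * k : ℕ) : ℝ) ^ (l + 1) := by gcongr
      _ = _ := by push_cast; ring

/-- from the families of progressions to pairs with a common difference -/
lemma pairs_of {N k : ℕ} {K c e : ℝ} {A : Finset ℕ} {Q : ℕ → ℕ → Prop} (h : ∃ G : Finset (Fin 1 → ℕ),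
    e * Real.log N ^ 1 ≤ (G.card : ℝ) ∧ ∀ g ∈ G, (∀ i, 1 ≤ g i ∧ (g i : ℝ) ≤ K * Real.log N) ∧
      ∃ F ∈ {F : Finset ℕ | ∃ a d : ℕ, Q a d ∧ F = (range k).image (fun j => a + j * d)}, F ⊆ A ∧
        ∀ k ∈ F, c * k / Real.log k ^ (1 + 1) ≤ (strings g k : ℝ)) :
    ∃ G : Finset ℕ, e * Real.log N ≤ (G.card : ℝ) ∧ ∀ g ∈ G, 1 ≤ g ∧ (g : ℝ) ≤ K * Real.log N ∧ ∃ a d : ℕ, Q a d ∧
      ∀ j < k, a + j * d ∈ A ∧ c * (a + j * d : ℕ) / Real.log (a + j * d : ℕ) ^ 2 ≤ (pairs g (a + j * d) : ℝ) := by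
  classical
  obtain ⟨G, h1, h2⟩ := h
  refine ⟨G.image (fun g => g 0), ?_, fun g0 hg0 => ?_⟩
  · rw [card_image_of_injective _ (fun x y hxy => by
      funext i
      have hi : i = 0 := Subsingleton.elim _ _
      rw [hi]
      exact hxy)]
    rwa [pow_one] at h1
  · rw [mem_image] at hg0
    obtain ⟨g, hg, rfl⟩ := hg0
    obtain ⟨h3, F, ⟨a, d, hQ, rfl⟩, hFA, hF⟩ := h2 g hg
    refine ⟨(h3 0).1, (h3 0).2, a, d, hQ, fun j hj => ?_⟩
    have hmem : a + j * d ∈ (range k).image (fun j => a + j * d) := mem_image.2 ⟨j, mem_range.2 hj, rfl⟩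
    refine ⟨hFA hmem, ?_⟩
    have h4 := hF _ hmem
    have hg : g = fun _ : Fin 1 => g 0 := by
      funext i
      have hi : i = 0 := Subsingleton.elim _ _
      rw [hi]
    rw [hg] at h4
    refine h4.trans ?_
    exact_mod_cast strings_le_pairs (g 0) (a + j * d)

theorem result :
    -- (1) the general theorem
    (∀ l : ℕ, ∃ K c e τ : ℝ, 0 < K ∧ 0 < c ∧ 0 < e ∧ 0 < τ ∧ ∀ S : Set ℕ, Thick S → ∀ ρ : ℝ, 0 < ρ →
      ∀ 𝓕 : Set (Finset ℕ), Reg S (τ * ρ) 𝓕 → ∃ N₀ : ℕ, ∀ N : ℕ, N₀ ≤ N → ∀ A : Finset ℕ, A ⊆ sec S N →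
        ρ * ((sec S N).card : ℝ) ≤ (A.card : ℝ) → ∃ G : Finset (Fin l → ℕ), e * Real.log N ^ l ≤ (G.card : ℝ) ∧
          ∀ g ∈ G, (∀ i, 1 ≤ g i ∧ (g i : ℝ) ≤ K * Real.log N) ∧
            ∃ F ∈ 𝓕, F ⊆ A ∧ ∀ k ∈ F, c * k / Real.log k ^ (l + 1) ≤ (strings g k : ℝ)) ∧
    -- (2) pairs, progressions in the dense sets of primes
    (∃ K c e : ℝ, 0 < K ∧ 0 < c ∧ 0 < e ∧ ∀ (m : ℕ) (ρ : ℝ), 0 < ρ → ∃ B N₀ : ℕ, ∀ N : ℕ, N₀ ≤ N → ∀ A : Finset ℕ,
      (∀ k ∈ A, k.Prime ∧ N ≤ k ∧ k ≤ 2 * N) → ρ * (N / Real.log N) ≤ (A.card : ℝ) →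
        ∃ G : Finset ℕ, e * Real.log N ≤ (G.card : ℝ) ∧ ∀ g ∈ G, 1 ≤ g ∧ (g : ℝ) ≤ K * Real.log N ∧
          ∃ a d : ℕ, (1 ≤ d ∧ (d : ℝ) ≤ Real.log a ^ B) ∧ ∀ j < m, a + j * d ∈ A ∧
            c * (a + j * d : ℕ) / Real.log (a + j * d : ℕ) ^ 2 ≤ (pairs g (a + j * d) : ℝ)) ∧
    -- (3) pairs, progressions in the dense sets of integers
    (∃ K c e : ℝ, 0 < K ∧ 0 < c ∧ 0 < e ∧ ∀ (m : ℕ) (ρ : ℝ), 0 < ρ → ∃ N₀ : ℕ, ∀ N : ℕ, N₀ ≤ N → ∀ A : Finset ℕ,
      A ⊆ Icc N (2 * N) → ρ * N ≤ (A.card : ℝ) →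
        ∃ G : Finset ℕ, e * Real.log N ≤ (G.card : ℝ) ∧ ∀ g ∈ G, 1 ≤ g ∧ (g : ℝ) ≤ K * Real.log N ∧
          ∃ a d : ℕ, 1 ≤ d ∧ ∀ j < m, a + j * d ∈ A ∧
            c * (a + j * d : ℕ) / Real.log (a + j * d : ℕ) ^ 2 ≤ (pairs g (a + j * d) : ℝ)) := by
  classical
  refine ⟨general, ?_, ?_⟩
  · obtain ⟨K, c, e, τ, hK, hc, he, hτ, h⟩ := general 1
    refine ⟨K, c, e, hK, hc, he, fun m ρ hρ => ?_⟩
    obtain ⟨C, hC, X₀, hup⟩ := Pool.Agent.U766.PW.primes_up
    obtain ⟨B, hB⟩ := Pool.Agent.U766.HO.reg_primes m (τ * (ρ / (2 * C + 2))) (by positivity)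
    have hB' : Reg {p | p.Prime} (τ * (ρ / (2 * C + 2))) {F | ∃ a d : ℕ, (1 ≤ d ∧ (d : ℝ) ≤ Real.log a ^ B) ∧
        F = (range m).image (fun j => a + j * d)} := by
      obtain ⟨N₀, h0⟩ := hB
      refine ⟨N₀, fun N hN A hA hAc => ?_⟩
      obtain ⟨F, ⟨a, d, h1, h2, h3⟩, h4⟩ := h0 N hN A hA hAc
      exact ⟨F, ⟨a, d, ⟨h1, h2⟩, h3⟩, h4⟩
    obtain ⟨N₀, hN₀⟩ := h {p | p.Prime} Pool.Agent.U766.HO.thick_primes (ρ / (2 * C + 2)) (by positivity) _ hB'
    refine ⟨B, max N₀ (max X₀ 3), fun N hN A hA hAc => ?_⟩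
    have a1 : N₀ ≤ N := (le_max_left _ _).trans hN
    have a2 : X₀ ≤ N := ((le_max_left _ _).trans (le_max_right _ _)).trans hN
    have a3 : 3 ≤ N := ((le_max_right _ _).trans (le_max_right _ _)).trans hN
    have hN3 : (3 : ℝ) ≤ N := by exact_mod_cast a3
    have hlog : 0 < Real.log N := Real.log_pos (by linarith)
    have hlogN : Real.log N ≤ N := (Real.log_le_sub_one_of_pos (by linarith)).trans (by linarith)
    apply pairs_of
    apply hN₀ N a1 A
    · intro k hk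
      obtain ⟨h1, h2, h3⟩ := hA k hk
      exact Pool.Agent.U766.HO.mem_sec.2 ⟨⟨h2, h3⟩, h1⟩
    · refine le_trans ?_ hAc
      have h1 : ((sec {p | p.Prime} N).card : ℝ) ≤ (2 * C + 2) * (N / Real.log N) := by
        have h2 : ((sec {p | p.Prime} N).card : ℝ) ≤ ((primesIn N N).card : ℝ) + 1 := by
          exact_mod_cast Pool.Agent.U766.HO.sec_primes_le N
        have h3 := hup N N a2 le_rfl
        have h4 : 1 ≤ (N : ℝ) / Real.log N := by
          rw [le_div_iff₀ hlog]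
          linarith
        nlinarith
      calc ρ / (2 * C + 2) * ((sec {p | p.Prime} N).card : ℝ)
          ≤ ρ / (2 * C + 2) * ((2 * C + 2) * (N / Real.log N)) := by gcongr
        _ = ρ * (N / Real.log N) := by field_simp
  · obtain ⟨K, c, e, τ, hK, hc, he, hτ, h⟩ := general 1
    refine ⟨K, c, e, hK, hc, he, fun m ρ hρ => ?_⟩
    obtain ⟨N₀, hN₀⟩ := h Set.univ Pool.Agent.U766.HO.thick_univ (ρ / 2) (by positivity) _
      (Pool.Agent.U766.HO.reg_univ m (τ * (ρ / 2)) (by positivity))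
    refine ⟨max N₀ 1, fun N hN A hA hAc => ?_⟩
    have a1 : N₀ ≤ N := (le_max_left _ _).trans hN
    have a2 : 1 ≤ N := (le_max_right _ _).trans hN
    have hN1 : (1 : ℝ) ≤ N := by exact_mod_cast a2
    apply pairs_of
    apply hN₀ N a1 A
    · rw [Pool.Agent.U766.HO.sec_univ]
      exact hA
    · rw [Pool.Agent.U766.HO.card_univ]
      nlinarith

end Pool.Agent.Results.MP_5f6ee5_nt.SamePrimesAlongProgressions
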